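import Pool.Agent.TF2.F.Exc
import Pool.Agent.TS.P.Alg
import Pool.Agent.TS.C.Sgn

/-!
# TF2/F-Tc: the exact sign for totally complex fields

`alg_p` (project TS) gives a relation between a totally complex field `K`, a totally real field of the same
degree, thin fields, fields with a subfield of index `2`, and squares of fields of bounded degree.
-/

namespace Pool.Agent.TF2

open NumberField IsDedekindDomain Pool.Agent.HWR Pool.Agent.QD Pool.Agent.QD.In Pool.Agent.LD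
  Pool.Agent.MD Pool.Agent.THF Pool.Agent.H73.AL

theorem le_bdC (n m : ℕ) : n ≤ bdC n m := by
  unfold bdC bdA
  have h1 : 0 < 2 ^ (13 + 2 * m) := by positivity
  have h2 : n ≤ n * 2 ^ (13 + 2 * m) := Nat.le_mul_of_pos_right _ h1
  have h3 := Nat.self_le_factorial (n * 2 ^ (13 + 2 * m))
  refine (h2.trans h3).trans ?_
  generalize (n * 2 ^ (13 + 2 * m)).factorial = x
  refine (Nat.le_mul_of_pos_left x two_pos).trans ?_
  have h4 : 0 < 2 ^ (2 * x) ^ 2 := by positivity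
  have h5 : 0 < 2 ^ (m + 1 + 3) := by positivity
  refine (Nat.le_mul_of_pos_right _ h4).trans ?_
  refine (Nat.le_mul_of_pos_left _ h5).trans ?_
  exact Nat.le_mul_of_pos_left _ two_pos

theorem core_tc {T : Finset ℕ} (hTp : ∀ p ∈ T, p.Prime)
    (hT : ∀ p : ℕ, p.Prime → p < 101 → p ∈ T) (D : LocData T) {a : ℕ → ℝ}
    (ha : ∀ q : ℕ, |a q| ≤ 2 * Real.sqrt q) (hfr : FrobRel T a) (V : Finset ℕ) (n m : ℕ)
    (hQ : D.HW a ℚ)
    (hR : 0 < m → ∀ (R : Type) [Field R] [NumberField R], InfinitePlace.nrComplexPlaces R = 0 →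
      Module.finrank ℚ R = 2 ^ m → D.HW a R ∧
      ∀ (F : Type) [Field F] [NumberField F] [Algebra R F], Module.finrank R F = 2 → D.HW a F)
    {k : ℕ} (X : Fin k → NF)
    (H : ∀ (F : Type) [Field F] [NumberField F], ThinV V T F → 2 ^ (m + 1) ∣ Module.finrank ℚ F →
      Module.finrank ℚ F ≤ bdC n m → (∀ i, IsEmpty (F ≃+* (X i).F)) → D.HW a F)
    (K : Type) [Field K] [NumberField K] (hK : InfinitePlace.nrRealPlaces K = 0)
    (hn : Pool.Agent.TS.bP (m + 1) (Module.finrank ℚ K) ≤ n)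
    (hF : ∀ (F : Type) [Field F] [NumberField F], InfinitePlace.nrComplexPlaces F = 0 →
      Module.finrank ℚ F = Module.finrank ℚ K → D.HW a F) : D.HW a K := by
  obtain ⟨V', hV, hX⟩ := exists_V_exc V T X
  have key : ∀ (L : Type) [Field L] [NumberField L], Module.finrank ℚ L ≤ n → AllQ D a L :=
    fun L _ _ hL => core_exc hTp hT D ha hfr V n m hQ hR X H L hL
  obtain ⟨F, A, B, Y, Z, h1, h2, h3, h4, h5⟩ :=
    Pool.Agent.TS.alg_p V' hTp (hT 2 Nat.prime_two (by norm_num)) (m + 1) ⟨K⟩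
  refine Pool.Agent.TS.sgn_rel hTp hT D ha ⟨K⟩ F A B Y Z (key K ((Pool.Agent.TS.le_bP _ Module.finrank_pos).trans hn)).1
    (hF F.F h1 h2) ?_ (fun L hL => (key L.F ((h4 L hL).2.trans hn)).1) h3
  intro L hL
  obtain ⟨g1, g2, g3⟩ := h5 L hL
  rcases g3 with ⟨g4, g5, g6⟩ | ⟨X0, g3, g4⟩
  · have g3 := g6 hK
    refine H L.F ⟨g3, fun p hp => g4 p (hV hp)⟩ g5 ((g2.trans hn).trans (le_bdC n m))
      fun i => ⟨fun e => ?_⟩
    exact hX i (thinV_map e.toRingHom ⟨g3, g4⟩)
  · have h6 : Module.finrank ℚ X0.F ≤ Module.finrank ℚ L.F := by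
      rw [← Module.finrank_mul_finrank ℚ X0.F L.F, g4]
      omega
    exact (key X0.F ((h6.trans g2).trans hn)).2 L.F g4

end Pool.Agent.TF2
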