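import Pool.Agent.TF2.F.Tc
import Pool.Agent.UPQ.C.Ind
import Pool.Agent.UPQ.H.Ind

/-!
# TF2/F-Pol: the theorem with poles

Instead of the Hasse-Weil conjecture over the thin fields it is only assumed that for every thin field `F` there is an
admissible function `Q` such that the products of `Q` with the completed L-functions over `F` and over the quadratic
extensions of `F` are entire, and that the poles in `1 ≤ Re s ≤ 3/2` have order less than `2 ^ j`; the bound for the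
degrees is multiplied by `2 ^ j` (theorem `towv_hw` of project UPQ; `tow_hw` is the version with one polynomial `Q`).
-/

namespace Pool.Agent.TF2

open Polynomial
open NumberField IsDedekindDomain Pool.Agent.HWR Pool.Agent.QD Pool.Agent.QD.In Pool.Agent.LD
  Pool.Agent.MD Pool.Agent.THF Pool.Agent.H73.AL

/-- towers of quadratic extensions of thin fields are thin -/
theorem tow_thin {T : Finset ℕ} (D : LocData T) {a : ℕ → ℝ} {V : Finset ℕ} {Q : ℂ[X]} {M N : ℕ}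
    (H : ∀ (F : Type) [Field F] [NumberField F], ThinV V T F → M ∣ Module.finrank ℚ F →
      Module.finrank ℚ F ≤ N → Pool.Agent.UPQ.HWQ D a Q F) (i : ℕ) :
    ∀ (F : Type) [Field F] [NumberField F], ThinV V T F → M ∣ Module.finrank ℚ F →
      2 ^ i * Module.finrank ℚ F ≤ N → Pool.Agent.UPQ.TowQ D a Q i F := by
  induction i with
  | zero =>
    intro F _ _ h1 h2 h3
    exact H F h1 h2 (by simpa using h3)
  | succ i ih =>
    intro F _ _ h1 h2 h3
    refine ⟨H F h1 h2 ?_, fun L _ _ _ hL => ih L (thinV_quad (K := F) h1) ?_ ?_⟩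
    · refine le_trans ?_ h3
      exact Nat.le_mul_of_pos_left _ (by positivity)
    · rw [← Module.finrank_mul_finrank ℚ F L]
      exact h2.mul_right _
    · rw [← Module.finrank_mul_finrank ℚ F L, hL]
      rw [pow_succ] at h3
      linarith

/-- from the polynomial version to the Hasse-Weil conjecture, with exceptions -/
theorem hw_thin {T : Finset ℕ} (hTp : ∀ p ∈ T, p.Prime)
    (hT : ∀ p : ℕ, p.Prime → p < 101 → p ∈ T) (D : LocData T) {a : ℕ → ℝ}
    (ha : ∀ q : ℕ, |a q| ≤ 2 * Real.sqrt q) (hfr : FrobRel T a)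
    (haz : ∀ q : ℕ, ∃ n : ℤ, a q = n) (V : Finset ℕ) (M N : ℕ) {k : ℕ} (X : Fin k → NF)
    {Q : ℂ[X]} (hQ : Q ≠ 0) {j : ℕ}
    (hQj : ∀ z : ℂ, 1 ≤ z.re → z.re ≤ 3 / 2 → Q.rootMultiplicity z < 2 ^ j)
    (H : ∀ (F : Type) [Field F] [NumberField F], ThinV V T F → M ∣ Module.finrank ℚ F →
      Module.finrank ℚ F ≤ 2 ^ j * N → (∀ i, IsEmpty (F ≃+* (X i).F)) →
      Pool.Agent.UPQ.HWQ D a Q F) :
    ∃ V' : Finset ℕ, V ⊆ V' ∧ ∀ (F : Type) [Field F] [NumberField F], ThinV V' T F →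
      M ∣ Module.finrank ℚ F → Module.finrank ℚ F ≤ N → D.HW a F := by
  obtain ⟨V', hV, hX⟩ := exists_V_exc V T X
  refine ⟨V', hV, fun F _ _ h1 h2 h3 => ?_⟩
  refine Pool.Agent.UPQ.tow_hw hTp hT D ha hfr haz hQ hQj F ?_
  refine tow_thin D (V := V') (M := M) (N := 2 ^ j * N) (fun E _ _ hE h4 h5 => ?_) j F h1 h2 ?_
  · refine H E ⟨hE.1, fun p hp => hE.2 p (hV hp)⟩ h4 h5 fun i => ⟨fun e => ?_⟩
    exact hX i (thinV_map e.toRingHom hE)
  · exact Nat.mul_le_mul_left _ h3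

/-- towers of quadratic extensions of thin fields, multipliers depending on the field -/
theorem towv_thin {T : Finset ℕ} (D : LocData T) {a : ℕ → ℝ} {V : Finset ℕ} {j M N : ℕ}
    (H : ∀ (F : Type) [Field F] [NumberField F], ThinV V T F → M ∣ Module.finrank ℚ F →
      Module.finrank ℚ F ≤ N → ∃ Q : ℂ → ℂ, Pool.Agent.UPQ.IsAdm Q ∧
      Pool.Agent.UPQ.HWG D a Q F ∧
      (∀ z : ℂ, 1 ≤ z.re → z.re ≤ 3 / 2 → Pool.Agent.UPQ.PoleLe D a Q F z (2 ^ j - 1)) ∧
      ∀ (L : Type) [Field L] [NumberField L] [Algebra F L], Module.finrank F L = 2 →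
        Module.finrank ℚ L ≤ N → Pool.Agent.UPQ.HWG D a Q L) (i : ℕ) :
    ∀ (F : Type) [Field F] [NumberField F], ThinV V T F → M ∣ Module.finrank ℚ F →
      2 ^ i * Module.finrank ℚ F ≤ N → Pool.Agent.UPQ.TowV D a (2 ^ j - 1) i F := by
  induction i with
  | zero =>
    intro F _ _ h1 h2 h3
    obtain ⟨Q, g1, g2, g3, -⟩ := H F h1 h2 (by simpa using h3)
    exact ⟨Q, g1, g2, g3⟩
  | succ i ih =>
    intro F _ _ h1 h2 h3
    have h4 : Module.finrank ℚ F ≤ N := by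
      refine le_trans ?_ h3
      exact Nat.le_mul_of_pos_left _ (by positivity)
    obtain ⟨Q, g1, g2, -, g3⟩ := H F h1 h2 h4
    have h5 : ∀ (L : Type) [Field L] [NumberField L] [Algebra F L], Module.finrank F L = 2 →
        2 ^ i * Module.finrank ℚ L ≤ N := by
      intro L _ _ _ hL
      rw [← Module.finrank_mul_finrank ℚ F L, hL]
      rw [pow_succ] at h3
      linarith
    refine ⟨⟨Q, g1, g2, fun L _ _ _ hL => g3 L hL ?_⟩, fun L _ _ _ hL =>
      ih L (thinV_quad (K := F) h1) ?_ (h5 L hL)⟩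
    · refine le_trans ?_ (h5 L hL)
      exact Nat.le_mul_of_pos_left _ (by positivity)
    · rw [← Module.finrank_mul_finrank ℚ F L]
      exact h2.mul_right _

/-- from the version with poles to the Hasse-Weil conjecture, with exceptions -/
theorem hwv_thin {T : Finset ℕ} (hTp : ∀ p ∈ T, p.Prime)
    (hT : ∀ p : ℕ, p.Prime → p < 101 → p ∈ T) (D : LocData T) {a : ℕ → ℝ}
    (ha : ∀ q : ℕ, |a q| ≤ 2 * Real.sqrt q) (hfr : FrobRel T a)
    (haz : ∀ q : ℕ, ∃ n : ℤ, a q = n) (V : Finset ℕ) (M N : ℕ) {k : ℕ} (X : Fin k → NF)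
    {j : ℕ}
    (H : ∀ (F : Type) [Field F] [NumberField F], ThinV V T F → M ∣ Module.finrank ℚ F →
      Module.finrank ℚ F ≤ 2 ^ j * N → (∀ i, IsEmpty (F ≃+* (X i).F)) →
      ∃ Q : ℂ → ℂ, Pool.Agent.UPQ.IsAdm Q ∧ Pool.Agent.UPQ.HWG D a Q F ∧
      (∀ z : ℂ, 1 ≤ z.re → z.re ≤ 3 / 2 → Pool.Agent.UPQ.PoleLe D a Q F z (2 ^ j - 1)) ∧
      ∀ (L : Type) [Field L] [NumberField L] [Algebra F L], Module.finrank F L = 2 →
        Module.finrank ℚ L ≤ 2 ^ j * N → (∀ i, IsEmpty (L ≃+* (X i).F)) →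
        Pool.Agent.UPQ.HWG D a Q L) :
    ∃ V' : Finset ℕ, V ⊆ V' ∧ ∀ (F : Type) [Field F] [NumberField F], ThinV V' T F →
      M ∣ Module.finrank ℚ F → Module.finrank ℚ F ≤ N → D.HW a F := by
  obtain ⟨V', hV, hX⟩ := exists_V_exc V T X
  refine ⟨V', hV, fun F _ _ h1 h2 h3 => ?_⟩
  have hr : 2 ^ j - 1 < 2 ^ j := by
    have h4 : 0 < 2 ^ j := by positivity
    omega
  refine Pool.Agent.UPQ.towv_hw hTp hT D ha hfr haz hr F ?_
  refine towv_thin D (V := V') (M := M) (N := 2 ^ j * N) (fun E _ _ hE h4 h5 => ?_) j F h1 h2 ?_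
  · obtain ⟨Q, g1, g2, g3, g4⟩ := H E ⟨hE.1, fun p hp => hE.2 p (hV hp)⟩ h4 h5
      fun i => ⟨fun e => hX i (thinV_map e.toRingHom hE)⟩
    refine ⟨Q, g1, g2, g3, fun L _ _ _ hL h6 => g4 L hL h6 fun i => ⟨fun e => ?_⟩⟩
    exact hX i (thinV_map e.toRingHom (thinV_quad (K := E) (L := L) hE))
  · exact Nat.mul_le_mul_left _ h3

end Pool.Agent.TF2
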