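import Pool.Agent.TF2.F.Final
import Pool.Agent.TF2.X.Odd
import Pool.Agent.TF2.X.R0

/-!
# TF2/F-Exc: the theorem with finitely many exceptional fields

For every exceptional field `X i` a prime `p i`, not in `T`, with a place of `X i` of odd local degree is added to `V`: then no
exceptional field is thin.
-/

namespace Pool.Agent.TF2

open NumberField IsDedekindDomain Pool.Agent.HWR Pool.Agent.QD Pool.Agent.QD.In Pool.Agent.LD
  Pool.Agent.MD Pool.Agent.THF Pool.Agent.H73.AL

theorem thinV_map {V T : Finset ℕ} {F X : Type} [Field F] [NumberField F] [Field X]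
    [NumberField X] (f : F →+* X) (h : ThinV V T F) : ThinV V T X := by
  let _ : Algebra F X := f.toAlgebra
  exact thinV_quad (K := F) h

theorem exists_V_exc (V T : Finset ℕ) {k : ℕ} (X : Fin k → NF) :
    ∃ V' : Finset ℕ, V ⊆ V' ∧ ∀ i, ¬ ThinV V' T (X i).F := by
  classical
  have h := fun i => exists_odd (X i).F T
  choose p hp hpT w hw hodd using h
  refine ⟨V ∪ Finset.univ.image p, Finset.subset_union_left, fun i hi => ?_⟩
  refine hodd i (hi.2 (p i) ?_ (hp i) (hpT i) (w i) (hw i))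
  exact Finset.mem_union_right _ (Finset.mem_image_of_mem p (Finset.mem_univ i))

theorem core_exc {T : Finset ℕ} (hTp : ∀ p ∈ T, p.Prime)
    (hT : ∀ p : ℕ, p.Prime → p < 101 → p ∈ T) (D : LocData T) {a : ℕ → ℝ}
    (ha : ∀ q : ℕ, |a q| ≤ 2 * Real.sqrt q) (hfr : FrobRel T a) (V : Finset ℕ) (n m : ℕ)
    (hQ : D.HW a ℚ)
    (hR : 0 < m → ∀ (R : Type) [Field R] [NumberField R], InfinitePlace.nrComplexPlaces R = 0 →
      Module.finrank ℚ R = 2 ^ m → D.HW a R ∧
      ∀ (F : Type) [Field F] [NumberField F] [Algebra R F], Module.finrank R F = 2 → D.HW a F)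
    {k : ℕ} (X : Fin k → NF)
    (H : ∀ (F : Type) [Field F] [NumberField F], ThinV V T F → 2 ^ (m + 1) ∣ Module.finrank ℚ F →
      Module.finrank ℚ F ≤ bdC n m → (∀ i, IsEmpty (F ≃+* (X i).F)) → D.HW a F)
    (K : Type) [Field K] [NumberField K] (hK : Module.finrank ℚ K ≤ n) : AllQ D a K := by
  obtain ⟨V', hV, hX⟩ := exists_V_exc V T X
  have H' : ∀ (F : Type) [Field F] [NumberField F], ThinV V' T F →
      2 ^ (m + 1) ∣ Module.finrank ℚ F → Module.finrank ℚ F ≤ bdC n m → D.HW a F := by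
    intro F _ _ hF h6 h7
    refine H F ⟨hF.1, fun p hp => hF.2 p (hV hp)⟩ h6 h7 fun i => ⟨fun e => ?_⟩
    exact hX i (thinV_map e.toRingHom hF)
  have hn : 0 < n := lt_of_lt_of_le Module.finrank_pos hK
  rcases Nat.eq_zero_or_pos m with rfl | hm
  · have h1 : Module.finrank ℚ (⟨ℚ⟩ : NF).F = 2 ^ 0 := Module.finrank_self ℚ
    refine core hTp hT D ha hfr V' n 0 hQ ⟨ℚ⟩ h1 ?_ (fun hE => ?_) H' K hK
    · have h6 := InfinitePlace.card_add_two_mul_card_eq_rank ℚ
      have h7 := InfinitePlace.nrRealPlaces_pos_of_odd_finrank (K := ℚ) (by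
        rw [Module.finrank_self]
        exact odd_one)
      exact h7
    · refine ndk_rat hTp hT D ha hfr hE ⟨?_, ?_⟩
      · rw [pow_zero]
        exact one_dvd _
      · rw [Module.finrank_self, one_mul, mul_zero, add_zero]
        exact Nat.le_mul_of_pos_left _ hn
  · obtain ⟨R0, h1, h2⟩ := exists_R0 m
    obtain ⟨h3, h4⟩ := hR hm R0.F h2 h1
    have h5 : 0 < InfinitePlace.nrRealPlaces R0.F := by
      have h6 := InfinitePlace.card_add_two_mul_card_eq_rank R0.F
      rw [h2, h1] at h6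
      have h7 : 0 < 2 ^ m := by positivity
      omega
    exact core hTp hT D ha hfr V' n m hQ R0 h1 h5 (fun _ => ndk_allQ hTp hT D ha hfr R0.F
      ⟨pm_of_hw D a h3, fun F _ _ _ hd => h4 F hd⟩) H' K hK

end Pool.Agent.TF2
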