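import Pool.Agent.TF2.F.Sgn
import Pool.Agent.TF2.I.Vk
import Pool.Agent.TF2.L.MerN2
import Pool.Agent.TF2.L.AlgR
import Pool.Agent.TF2.G.Main
import Pool.Agent.TF2.C.Main

/-!
# TF2/F-Final: the theorem for the fields of degree at most `n`

`hR3`: the reference field `R0` (totally real, of degree `2 ^ m`) has the right orders at the far negative integers.
-/

namespace Pool.Agent.TF2

open NumberField IsDedekindDomain Pool.Agent.HWR Pool.Agent.QD Pool.Agent.QD.In Pool.Agent.LD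
  Pool.Agent.MD Pool.Agent.THF Pool.Agent.H73.AL

open Nat in
private theorem fin_le (x m : ℕ) : x ≤ bdA x m := by
  unfold bdA
  have h1 : x ≤ x ! := Nat.self_le_factorial x
  have h2 : 0 < 2 ^ (m + 3) := by positivity
  have h3 : 0 < 2 ^ (2 * x !) ^ 2 := by positivity
  calc x ≤ x ! := h1
    _ ≤ 2 * x ! := by omega
    _ ≤ 2 * x ! * 2 ^ (2 * x !) ^ 2 := Nat.le_mul_of_pos_right _ h3
    _ ≤ _ := Nat.le_mul_of_pos_left _ h2

/-- `j` descents -/
theorem cl_desc {T : Finset ℕ} (hTp : ∀ p ∈ T, p.Prime)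
    (hT : ∀ p : ℕ, p.Prime → p < 101 → p ∈ T) (D : LocData T) {a : ℕ → ℝ}
    (ha : ∀ q : ℕ, |a q| ≤ 2 * Real.sqrt q) (hfr : FrobRel T a) {B k : ℕ} (m : ℕ)
    (h : Cl D a (2 ^ m) B k) : Cl D a 1 B (k + 2 * m) := by
  induction m generalizing k with
  | zero => simpa using h
  | succ m ih =>
    have h1 : Cl D a (2 ^ m) B (k + 2) := by
      intro K _ _ hK
      refine allQ_descent hTp hT D ha hfr K ?_ ?_
      · intro L _ _ _ hL
        have h2 : Lv (2 * 2 ^ m) B (k + 1) L := hK.quad2 hL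
        rw [← pow_succ'] at h2
        exact h L (h2.mono (by omega))
      · intro L _ _ _ hL E _ _ _ hE
        have h2 : Lv (2 * 2 ^ m) B (k + 1) L := hK.quad2 hL
        rw [← pow_succ'] at h2
        exact h E (h2.quad hE)
    have h3 := ih h1
    have e : k + 2 + 2 * m = k + 2 * (m + 1) := by ring
    rwa [e] at h3

/-- the bound for the degrees of the thin fields -/
def bdC (n m : ℕ) : ℕ := 2 * bdA (n * 2 ^ (13 + 2 * m)) (m + 1)

theorem core {T : Finset ℕ} (hTp : ∀ p ∈ T, p.Prime)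
    (hT : ∀ p : ℕ, p.Prime → p < 101 → p ∈ T) (D : LocData T) {a : ℕ → ℝ}
    (ha : ∀ q : ℕ, |a q| ≤ 2 * Real.sqrt q) (hfr : FrobRel T a) (V : Finset ℕ) (n m : ℕ)
    (hQ : D.HW a ℚ) (R0 : NF) (hR1 : Module.finrank ℚ R0.F = 2 ^ m)
    (hR2 : 0 < InfinitePlace.nrRealPlaces R0.F)
    (hR3 : ExL D a (2 ^ m) (n * 2 ^ (13 + 2 * m)) 11 →
      NDk T a R0.F (InfinitePlace.nrRealPlaces R0.F))
    (H : ∀ (F : Type) [Field F] [NumberField F], ThinV V T F → 2 ^ (m + 1) ∣ Module.finrank ℚ F →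
      Module.finrank ℚ F ≤ bdC n m → D.HW a F)
    (K : Type) [Field K] [NumberField K] (hK : Module.finrank ℚ K ≤ n) : AllQ D a K := by
  set B : ℕ := n * 2 ^ (13 + 2 * m) with hB
  have hn : 0 < n := lt_of_lt_of_le Module.finrank_pos hK
  have hbd : bdC n m = 2 * bdA B (m + 1) := rfl
  have hnA : ∀ x : ℕ, x ≤ bdA x (m + 1) := fun x => fin_le x _
  have hG : GlobL D a (2 ^ m) B := by
    refine globL_of (V := V) hTp D fun F _ _ h1 h2 h3 => H F h1 (by rw [pow_succ']; exact h2) ?_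
    rw [hbd]
    have := hnA B
    omega
  have hEv : ∀ (F : Type) [Field F] [NumberField F], Ev V T (m + 1) F →
      Module.finrank ℚ F ≤ bdC n m → D.HW a F := fun F _ _ h1 h2 => H F ⟨h1.1, h1.2.2⟩ h1.2.1 h2
  have hM : MerL D a (2 ^ m) B := by
    intro F _ _ hF
    refine mern2 hTp hT D ha hQ hEv F ?_
    have h1 : Module.finrank ℚ F ≤ B := by simpa using hF.2
    have h2 := bdA_mono h1 (m + 1)
    rw [hbd]
    omega
  have hE := exL_of hTp hT D ha hfr hG hM
  have hcl : Cl D a (2 ^ m) B 13 := by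
    intro K _ _ hK
    have hKB : Module.finrank ℚ K ≤ B := by
      simpa using (hK.mono (j := 0) (by norm_num)).2
    refine ⟨hE.1 K (hK.mono (by norm_num)), fun F _ _ _ hd => ?_⟩
    obtain ⟨m1, m2, A, Bl, h1, h2, h3, h4⟩ :=
      algR V (m + 1) hTp (hT 2 Nat.prime_two (by norm_num)) ⟨K⟩ R0 hR2
    have hR0B : Module.finrank ℚ R0.F ≤ B := by
      rw [hR1, hB]
      calc 2 ^ m ≤ 2 ^ (13 + 2 * m) := Nat.pow_le_pow_right two_pos (by omega)
        _ ≤ n * 2 ^ (13 + 2 * m) := Nat.le_mul_of_pos_left _ hn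
    have hAB : ∀ F ∈ A ++ Bl, IsEmpty (F.F →+* ℝ) ∧ AllQ D a F.F := by
      intro F hF
      obtain ⟨h5, h6⟩ := h3 F hF
      have h7 : Module.finrank ℚ F.F ≤ bdA B (m + 1) :=
        h6.trans (max_le (bdA_mono hKB _) (bdA_mono hR0B _))
      refine ⟨h5.1, pm_of_hw D a (hEv F.F h5 (by rw [hbd]; omega)), fun E _ _ _ hE => ?_⟩
      have h8 : Module.finrank ℚ E = Module.finrank ℚ F.F * 2 := by
        rw [← Module.finrank_mul_finrank ℚ F.F E, hE]
      refine H E (thinV_quad ⟨h5.1, h5.2.2⟩ (K := F.F)) ?_ ?_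
      · rw [h8]
        exact h5.2.1.mul_right 2
      · rw [h8, hbd]
        omega
    exact exact_signN hTp hT D ha hfr hE K hK h1 hAB (hR3 hE) h2 h4 F hd
  have h1 := cl_desc hTp hT D ha hfr m hcl
  exact h1 K ⟨one_dvd _, by rw [hB]; exact Nat.mul_le_mul_right _ hK⟩

end Pool.Agent.TF2
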