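import Pool.Agent.TF2.E.Tower
import Pool.Agent.THF.R.End
import Pool.Agent.THF.R.Mer

/-!
# TF2/F-Pm: Hasse-Weil up to sign for the fields of the class
-/

namespace Pool.Agent.TF2

open NumberField IsDedekindDomain Pool.Agent.HWR Pool.Agent.QD Pool.Agent.QD.In Pool.Agent.LD
  Pool.Agent.MD Pool.Agent.THF

theorem hwpmL {T : Finset ℕ} (hTp : ∀ p ∈ T, p.Prime)
    (hT : ∀ p : ℕ, p.Prime → p < 101 → p ∈ T) (D : LocData T) {a : ℕ → ℝ}
    (ha : ∀ q : ℕ, |a q| ≤ 2 * Real.sqrt q) (hfr : FrobRel T a) {M B : ℕ} (hG : GlobL D a M B)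
    (hM : MerL D a M B) (K : Type) [Field K] [NumberField K] (hK : Lv M B 11 K) :
    HWpm D a K := by
  have hR : RH D a K := step1L hTp hT D ha hfr hG K (hK.mono (by norm_num))
  obtain ⟨N, hN, hMN⟩ := hM K (hK.mono (by norm_num))
  have hMk : MERk D a K := merk D hTp hT ha hR hN hMN
    (ioL hTp hT D ha hfr hG hM K (hK.mono (by norm_num)))
  exact hwpm_of_nopole D hTp hT ha hR hMk hN hMN
    (fun z o hz h0 => no_poleL hTp hT D ha hfr hG hM hz K hK h0)

end Pool.Agent.TF2
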